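import Pool.Agent.Y478.TG.Stm

/-!
# Betti numbers over `ZMod p` and over `ℚ`, with a lower bound for the torsion
-/

set_option autoImplicit false

noncomputable section

namespace Pool.Agent.Y445.TG

open Pool.Agent.Y478.TG

variable {I : Type} [Fintype I]

/-! ### Ranks over a field -/

section field

variable {F : Type} [Field F] (d : I → ℕ) (A : Matrix I I F)

theorem boundaries_le (h : IsCx d A) (n : ℕ) : boundaries d A n ≤ cycles d A n := by
  rintro w ⟨v, hv, rfl⟩
  refine ⟨fun i hi => ?_, ?_⟩
  · rw [Matrix.vecMulLinear_apply, Matrix.vecMul, dotProduct]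
    refine Finset.sum_eq_zero fun a _ => ?_
    by_cases ha : v a = 0
    · rw [ha, zero_mul]
    by_cases hb : A a i = 0
    · rw [hb, mul_zero]
    exfalso
    have h1 : d a = n + 1 := by
      by_contra h1
      exact ha (hv a h1)
    have h2 := h.1 a i hb
    omega
  · rw [SetLike.mem_coe, LinearMap.mem_ker, Matrix.vecMulLinear_apply, Matrix.vecMulLinear_apply,
      Matrix.vecMul_vecMul, h.2, Matrix.vecMul_zero]

/-- rank of the boundaries -/
def rk (n : ℕ) : ℕ := Module.finrank F (boundaries d A n)

theorem finrank_image_add (n : ℕ) :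
    Module.finrank F ((chains F d n).map (Matrix.vecMulLinear A)) +
      Module.finrank F (cycles d A n) = Module.finrank F (chains F d n) := by
  have h := LinearMap.finrank_range_add_finrank_ker
    ((Matrix.vecMulLinear A).domRestrict (chains F d n))
  rw [LinearMap.range_domRestrict] at h
  have h2 : Module.finrank F (LinearMap.ker ((Matrix.vecMulLinear A).domRestrict (chains F d n))) =
      Module.finrank F (cycles d A n) := by
    have e : LinearMap.ker ((Matrix.vecMulLinear A).domRestrict (chains F d n)) =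
        (cycles d A n).submoduleOf (chains F d n) := by
      ext x
      simp only [LinearMap.mem_ker, LinearMap.domRestrict_apply, Submodule.submoduleOf, cycles,
        Submodule.mem_comap, Submodule.mem_inf, Submodule.subtype_apply]
      constructor
      · intro hx
        exact ⟨x.2, hx⟩
      · intro hx
        exact hx.2
    rw [e]
    exact (Submodule.submoduleOfEquivOfLe inf_le_left).finrank_eq
  rw [h2] at h
  exact h

theorem betti_add (h : IsCx d A) (n : ℕ) :
    betti d A n + rk d A n = Module.finrank F (cycles d A n) := by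
  have h1 := Submodule.finrank_quotient_add_finrank
    ((boundaries d A n).submoduleOf (cycles d A n))
  rw [(Submodule.submoduleOfEquivOfLe (boundaries_le d A h n)).finrank_eq] at h1
  exact h1

theorem betti_zero (h : IsCx d A) :
    betti d A 0 + rk d A 0 = Module.finrank F (chains F d 0) := by
  rw [betti_add d A h, ← finrank_image_add d A 0]
  have : (chains F d 0).map (Matrix.vecMulLinear A) = ⊥ := by
    rw [eq_bot_iff]
    rintro w ⟨v, hv, rfl⟩
    rw [Submodule.mem_bot]
    ext i
    rw [Matrix.vecMulLinear_apply, Matrix.vecMul, dotProduct]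
    refine Finset.sum_eq_zero fun a _ => ?_
    by_cases ha : v a = 0
    · rw [ha, zero_mul]
    by_cases hb : A a i = 0
    · rw [hb, mul_zero]
    exfalso
    have h1 : d a = 0 := by
      by_contra h1
      exact ha (hv a h1)
    have h2 := h.1 a i hb
    omega
  rw [this, finrank_bot, zero_add]

theorem betti_succ (h : IsCx d A) (n : ℕ) :
    betti d A (n + 1) + rk d A (n + 1) + rk d A n = Module.finrank F (chains F d (n + 1)) := by
  rw [betti_add d A h, ← finrank_image_add d A (n + 1), rk, add_comm]
  rfl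

/-- The chains. -/
def chainsEquiv (n : ℕ) : chains F d n ≃ₗ[F] ({i : I // d i = n} → F) where
  toFun v := fun j => v.1 j.1
  map_add' _ _ := rfl
  map_smul' _ _ := rfl
  invFun w := ⟨fun i => if h : d i = n then w ⟨i, h⟩ else 0, fun i hi => by
    simp only [hi, dite_false]⟩
  left_inv v := by
    ext i
    by_cases hi : d i = n
    · simp [hi]
    · simp only [hi, dite_false]
      exact (v.2 i hi).symm
  right_inv w := by
    ext j
    simp [j.2]

theorem finrank_chains (n : ℕ) :
    Module.finrank F (chains F d n) = Fintype.card {i : I // d i = n} := by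
  rw [(chainsEquiv d n).finrank_eq, Module.finrank_fintype_fun_eq_card]

end field

/-! ### Reduction -/

section red

variable (F : Type) [Field F]

/-- reduction of vectors -/
def red : (I → ℤ) →ₗ[ℤ] (I → F) where
  toFun v := fun i => (v i : F)
  map_add' v w := by ext i; simp
  map_smul' c v := by ext i; simp

@[simp] theorem red_apply (v : I → ℤ) (i : I) : red F v i = (v i : F) := rfl

theorem red_vecMul (A : Matrix I I ℤ) (v : I → ℤ) :
    red F (Matrix.vecMul v A) = Matrix.vecMul (red F v) (toF F A) := by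
  ext j
  simp only [red_apply, Matrix.vecMul, dotProduct, toF, Matrix.map_apply]
  push_cast
  rfl

theorem isCx_toF {d : I → ℕ} {A : Matrix I I ℤ} (h : IsCx d A) : IsCx d (toF F A) := by
  refine ⟨fun a b hab => h.1 a b fun h0 => hab ?_, ?_⟩
  · simp [toF, h0]
  · have := (Matrix.map_mul (L := A) (M := A) (f := Int.castRingHom F)).symm
    rw [toF, this, h.2]
    ext
    simp

/-- The boundaries over the field are spanned by the reductions of the integral boundaries. -/
theorem boundaries_toF [DecidableEq I] (d : I → ℕ) (A : Matrix I I ℤ) (n : ℕ) :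
    boundaries d (toF F A) n = Submodule.span F (red F '' (boundaries d A n : Set (I → ℤ))) := by
  apply le_antisymm
  · rintro w ⟨v, hv, rfl⟩
    have hv' : v = ∑ i, v i • (Pi.single i (1 : F) : I → F) := by
      ext j
      simp [Finset.sum_apply, Pi.single_apply]
    rw [hv', map_sum]
    refine Submodule.sum_mem _ fun i _ => ?_
    by_cases hi : v i = 0
    · rw [hi, zero_smul, map_zero]
      exact Submodule.zero_mem _
    rw [map_smul]
    refine Submodule.smul_mem _ _ (Submodule.subset_span ⟨Matrix.vecMul (Pi.single i 1) A, ?_, ?_⟩)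
    · refine ⟨Pi.single i 1, fun j hj => ?_, rfl⟩
      rw [Pi.single_apply, if_neg]
      rintro rfl
      exact hi (hv j hj)
    · rw [red_vecMul, Matrix.vecMulLinear_apply]
      congr 1
      ext j
      simp [Pi.single_apply]
  · rw [Submodule.span_le]
    rintro _ ⟨_, ⟨v, hv, rfl⟩, rfl⟩
    refine ⟨red F v, fun i hi => ?_, ?_⟩
    · rw [red_apply, hv i hi, Int.cast_zero]
    · rw [Matrix.vecMulLinear_apply, Matrix.vecMulLinear_apply, red_vecMul]

/-- The reduction of a basis is a linearly independent family. -/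
theorem red_basis [DecidableEq I] (b : Module.Basis I ℤ (I → ℤ)) :
    LinearIndependent F (fun i => red F (b i)) := by
  apply linearIndependent_of_top_le_span_of_card_eq_finrank
  · have h1 : ∀ v : I → ℤ, red F v ∈ Submodule.span F (Set.range fun i => red F (b i)) := by
      intro v
      rw [← b.sum_repr v, map_sum]
      refine Submodule.sum_mem _ fun i _ => ?_
      rw [map_smul]
      have : (b.repr v i) • red F (b i) = ((b.repr v i : ℤ) : F) • red F (b i) := by
        rw [Int.cast_smul_eq_zsmul]
      rw [this]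
      exact Submodule.smul_mem _ _ (Submodule.subset_span ⟨i, rfl⟩)
    intro w _
    have hw : w = ∑ i, w i • red F (Pi.single i (1 : ℤ)) := by
      ext j
      simp [Finset.sum_apply, Pi.single_apply]
    rw [hw]
    exact Submodule.sum_mem _ fun i _ => Submodule.smul_mem _ _ (h1 _)
  · simp

/-- The rank of the boundaries over a field from the Smith normal form. -/
theorem rk_eq [DecidableEq I] (d : I → ℕ) (A : Matrix I I ℤ) (n : ℕ) {k : ℕ}
    (s : Module.Basis.SmithNormalForm (boundaries d A n) I k) :
    rk d (toF F A) n = Nat.card {i : Fin k // ((s.a i : ℤ) : F) ≠ 0} := by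
  classical
  have h1 : boundaries d (toF F A) n =
      Submodule.span F (Set.range fun i : {i : Fin k // ((s.a i : ℤ) : F) ≠ 0} =>
        red F (s.bM (s.f i.1))) := by
    rw [boundaries_toF]
    apply le_antisymm
    · rw [Submodule.span_le]
      rintro _ ⟨x, hx, rfl⟩
      have hx' := congrArg Subtype.val (s.bN.sum_repr ⟨x, hx⟩)
      rw [AddSubmonoidClass.coe_finsetSum] at hx'
      simp only [SetLike.val_smul, s.snf] at hx'
      rw [SetLike.mem_coe, ← hx', map_sum]
      refine Submodule.sum_mem _ fun i _ => ?_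
      rw [map_smul, map_smul, ← Int.cast_smul_eq_zsmul F, ← Int.cast_smul_eq_zsmul F]
      refine Submodule.smul_mem _ _ ?_
      by_cases hi : ((s.a i : ℤ) : F) = 0
      · rw [hi, zero_smul]
        exact Submodule.zero_mem _
      · exact Submodule.smul_mem _ _ (Submodule.subset_span ⟨⟨i, hi⟩, rfl⟩)
    · rw [Submodule.span_le]
      rintro _ ⟨⟨i, hi⟩, rfl⟩
      have h2 : red F (s.bM (s.f i)) = (((s.a i : ℤ) : F))⁻¹ • red F (s.bN i : I → ℤ) := by
        rw [s.snf, map_smul, ← Int.cast_smul_eq_zsmul F, smul_smul, inv_mul_cancel₀ hi, one_smul]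
      rw [SetLike.mem_coe]
      show red F (s.bM (s.f i)) ∈ _
      rw [h2]
      exact Submodule.smul_mem _ _ (Submodule.subset_span ⟨_, (s.bN i).2, rfl⟩)
  rw [rk, h1, finrank_span_eq_card, Nat.card_eq_fintype_card]
  exact (red_basis F s.bM).comp (fun i : {i : Fin k // ((s.a i : ℤ) : F) ≠ 0} => s.f i.1)
    (s.f.injective.comp Subtype.val_injective)

end red

theorem a_ne_zero {M : Submodule ℤ (I → ℤ)} {k : ℕ}
    (s : Module.Basis.SmithNormalForm M I k) (i : Fin k) : s.a i ≠ 0 := by
  intro h
  have h1 := s.snf i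
  rw [h, zero_smul] at h1
  exact s.bN.ne_zero i (Subtype.ext h1)

/-! ### Torsion -/

/-- The lower bound of the torsion. -/
theorem tors_ge (p : ℕ) [hp : Fact p.Prime] [DecidableEq I] (d : I → ℕ) (A : Matrix I I ℤ)
    (h : IsCx d A) (n : ℕ) {k : ℕ}
    (s : Module.Basis.SmithNormalForm (boundaries d A n) I k) :
    p ^ Nat.card {i : Fin k // (p : ℤ) ∣ s.a i} ≤ torsOrder d A n := by
  classical
  set S := {i : Fin k // (p : ℤ) ∣ s.a i} with hS
  set Z := cycles d A n with hZ
  set B := (boundaries d A n).submoduleOf Z with hB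
  have hle : boundaries d A n ≤ Z := by
    rintro w ⟨v, hv, rfl⟩
    refine ⟨fun i hi => ?_, ?_⟩
    · rw [Matrix.vecMulLinear_apply, Matrix.vecMul, dotProduct]
      refine Finset.sum_eq_zero fun a _ => ?_
      by_cases ha : v a = 0
      · rw [ha, zero_mul]
      by_cases hb : A a i = 0
      · rw [hb, mul_zero]
      exfalso
      have h1 : d a = n + 1 := by
        by_contra h1
        exact ha (hv a h1)
      have h2 := h.1 a i hb
      omega
    · rw [SetLike.mem_coe, LinearMap.mem_ker, Matrix.vecMulLinear_apply,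
        Matrix.vecMulLinear_apply, Matrix.vecMul_vecMul, h.2, Matrix.vecMul_zero]
  -- the basis vectors are cycles
  have hbZ : ∀ i : Fin k, s.bM (s.f i) ∈ Z := by
    intro i
    have h1 : s.a i • s.bM (s.f i) ∈ Z := by
      rw [← s.snf]
      exact hle (s.bN i).2
    have ha := a_ne_zero s i
    refine ⟨fun j hj => ?_, ?_⟩
    · have := h1.1 j hj
      rw [Pi.smul_apply, smul_eq_mul] at this
      exact (mul_eq_zero.1 this).resolve_left ha
    · have h2 : Matrix.vecMulLinear A (s.a i • s.bM (s.f i)) = 0 := h1.2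
      rw [map_smul] at h2
      rw [SetLike.mem_coe, LinearMap.mem_ker]
      exact (smul_eq_zero.1 h2).resolve_left ha
  have hfg : Module.Finite ℤ (Z ⧸ B) := inferInstance
  have hfin : Finite (Submodule.torsion ℤ (Z ⧸ B)) := by
    have : Module.Finite ℤ (Submodule.torsion ℤ (Z ⧸ B)) := inferInstance
    exact Module.finite_of_fg_torsion _ (Submodule.torsion_isTorsion)
  -- the elements
  let z : (S → Fin p) → Z := fun c =>
    ⟨∑ i : S, (((c i : ℕ) : ℤ) * (s.a i.1 / p)) • s.bM (s.f i.1),
      Submodule.sum_mem _ fun i _ => Submodule.smul_mem _ _ (hbZ i.1)⟩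
  have hz : ∀ c, (p : ℤ) • z c ∈ B := by
    intro c
    show (((p : ℤ) • z c : Z) : I → ℤ) ∈ boundaries d A n
    rw [SetLike.val_smul]
    show (p : ℤ) • ∑ i : S, (((c i : ℕ) : ℤ) * (s.a i.1 / p)) • s.bM (s.f i.1) ∈ boundaries d A n
    rw [Finset.smul_sum]
    refine Submodule.sum_mem _ fun i _ => ?_
    obtain ⟨q, hq⟩ := i.2
    have hp0 : (p : ℤ) ≠ 0 := by exact_mod_cast hp.out.ne_zero
    have : (p : ℤ) • (((c i : ℕ) : ℤ) * (s.a i.1 / p)) • s.bM (s.f i.1) =
        ((c i : ℕ) : ℤ) • (s.bN i.1 : I → ℤ) := by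
      rw [s.snf, smul_smul, smul_smul, hq, Int.mul_ediv_cancel_left _ hp0]
      congr 1
      ring
    rw [this]
    exact Submodule.smul_mem _ _ (s.bN i.1).2
  let φ : (S → Fin p) → Submodule.torsion ℤ (Z ⧸ B) := fun c =>
    ⟨B.mkQ (z c), by
      rw [Submodule.mem_torsion_iff]
      refine ⟨⟨(p : ℤ), ?_⟩, ?_⟩
      · exact mem_nonZeroDivisors_of_ne_zero (by exact_mod_cast hp.out.ne_zero)
      · show (p : ℤ) • B.mkQ (z c) = 0
        rw [← map_smul]
        exact (Submodule.Quotient.mk_eq_zero B).2 (hz c)⟩
  have hinj : Function.Injective φ := by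
    intro c c' hcc
    have h1 : B.mkQ (z c) = B.mkQ (z c') := congrArg Subtype.val hcc
    have h2 : z c - z c' ∈ B := by
      rw [← Submodule.Quotient.mk_eq_zero B, Submodule.Quotient.mk_sub]
      exact sub_eq_zero.2 h1
    have h3 : ((z c : Z) : I → ℤ) - (z c' : Z) ∈ boundaries d A n := h2
    ext i
    have h4 := s.repr_apply_embedding_eq_repr_smul ⟨_, h3⟩ (i := i.1)
    have h5 : ∀ c : S → Fin p, s.bM.repr ((z c : Z) : I → ℤ) (s.f i.1) =
        ((c i : ℕ) : ℤ) * (s.a i.1 / p) := by
      intro c
      show s.bM.repr (∑ i : S, (((c i : ℕ) : ℤ) * (s.a i.1 / p)) • s.bM (s.f i.1)) (s.f i.1) = _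
      rw [map_sum, Finsupp.finsetSum_apply, Finset.sum_eq_single i]
      · rw [map_smul, Finsupp.smul_apply, Module.Basis.repr_self, Finsupp.single_eq_same,
          smul_eq_mul, mul_one]
      · intro j _ hj
        rw [map_smul, Finsupp.smul_apply, Module.Basis.repr_self, Finsupp.single_apply, if_neg,
          smul_zero]
        intro hf
        exact hj (Subtype.ext (s.f.injective hf))
      · intro hi
        exact absurd (Finset.mem_univ _) hi
    rw [map_sub, Finsupp.sub_apply, h5, h5, map_smul, Finsupp.smul_apply, smul_eq_mul] at h4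
    set m := s.bN.repr ⟨_, h3⟩ i.1 with hm
    obtain ⟨q, hq⟩ := i.2
    have hp0 : (p : ℤ) ≠ 0 := by exact_mod_cast hp.out.ne_zero
    have hq0 : q ≠ 0 := by
      rintro rfl
      exact a_ne_zero s i.1 (by rw [hq, mul_zero])
    rw [hq, Int.mul_ediv_cancel_left _ hp0] at h4
    have h6 : ((c i : ℕ) : ℤ) - ((c' i : ℕ) : ℤ) = p * m := by
      apply mul_right_cancel₀ hq0
      linarith
    have h7 : (c i : ℕ) < p := (c i).2
    have h8 : (c' i : ℕ) < p := (c' i).2
    have h9 : m = 0 := by
      have h10 : (p : ℤ) * m < p := by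
        rw [← h6]
        have : ((c i : ℕ) : ℤ) < p := by exact_mod_cast h7
        have : (0 : ℤ) ≤ ((c' i : ℕ) : ℤ) := by positivity
        linarith
      have h11 : -(p : ℤ) < p * m := by
        rw [← h6]
        have : ((c' i : ℕ) : ℤ) < p := by exact_mod_cast h8
        have : (0 : ℤ) ≤ ((c i : ℕ) : ℤ) := by positivity
        linarith
      have hp1 : (0 : ℤ) < p := by exact_mod_cast hp.out.pos
      have h12 : m < 1 := by nlinarith
      have h13 : -1 < m := by nlinarith
      omega
    rw [h9, mul_zero, sub_eq_zero] at h6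
    exact_mod_cast h6
  have hcard := Nat.card_le_card_of_injective φ hinj
  rw [Nat.card_eq_fintype_card (α := S → Fin p), Fintype.card_fun, Fintype.card_fin,
    ← Nat.card_eq_fintype_card] at hcard
  exact hcard

/-- **UCT.** -/
theorem t : UctStmt := by
  classical
  intro p hp I _ _ d A h
  have hs : ∀ n, ∃ (k : ℕ) (_ : Module.Basis.SmithNormalForm (boundaries d A n) I k), True :=
    fun n => ⟨_, (Submodule.smithNormalForm (Pi.basisFun ℤ I) (boundaries d A n)).2, trivial⟩
  choose k s _ using hs
  have hQ : ∀ n, rk d (toF ℚ A) n = k n := by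
    intro n
    rw [rk_eq ℚ d A n (s n)]
    have e : Nat.card {i : Fin (k n) // (((s n).a i : ℤ) : ℚ) ≠ 0} = Nat.card (Fin (k n)) :=
      Nat.card_congr (Equiv.subtypeUnivEquiv fun i => by
        exact_mod_cast a_ne_zero (s n) i)
    rw [e, Nat.card_eq_fintype_card, Fintype.card_fin]
  have hP : ∀ n, rk d (toF (ZMod p) A) n + Nat.card {i : Fin (k n) // (p : ℤ) ∣ (s n).a i} =
      k n := by
    intro n
    rw [rk_eq (ZMod p) d A n (s n)]
    have e : ∀ i : Fin (k n), (((s n).a i : ℤ) : ZMod p) ≠ 0 ↔ ¬ (p : ℤ) ∣ (s n).a i := fun i => by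
      rw [Ne, ZMod.intCast_zmod_eq_zero_iff_dvd]
    rw [Nat.card_congr (Equiv.subtypeEquivRight e), Nat.card_eq_fintype_card,
      Nat.card_eq_fintype_card, Fintype.card_subtype_compl, Fintype.card_fin]
    have := Fintype.card_subtype_le fun i : Fin (k n) => (p : ℤ) ∣ (s n).a i
    rw [Fintype.card_fin] at this
    omega
  refine ⟨fun n => Nat.card {i : Fin (k n) // (p : ℤ) ∣ (s n).a i}, fun n =>
    tors_ge p d A h n (s n), ?_, fun n => ?_⟩
  · have h1 := betti_zero d _ (isCx_toF (ZMod p) h)
    have h2 := betti_zero d _ (isCx_toF ℚ h)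
    rw [finrank_chains] at h1 h2
    have h3 := hQ 0
    have h4 := hP 0
    simp only
    omega
  · have h1 := betti_succ d _ (isCx_toF (ZMod p) h) n
    have h2 := betti_succ d _ (isCx_toF ℚ h) n
    rw [finrank_chains] at h1 h2
    have h3 := hQ n
    have h4 := hP n
    have h5 := hQ (n + 1)
    have h6 := hP (n + 1)
    simp only
    omega

end Pool.Agent.Y445.TG
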